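import Pool.Agent.H30.FQ.Targets2

/-! # MP_70ba79_ag, module EXC: the exceptional curves are algebraic -/

set_option autoImplicit false

namespace Pool.Agent.H93.FQ

open SC Pool.Agent.H27.LV Pool.Agent.H30.FQ

section

variable {R : Type} [CommRing R]

/-- polynomial of the first curve -/
def e1 (X Y : R) : R :=
  16 * (X + Y - 1) * (X - Y) ^ 2 - ((X + Y - 1) ^ 2 + 6 * (X + Y - 1) + 1) ^ 2

def a0 (u : R) : R := 1 + 560 * u + 154 * u ^ 2
def a1 (u : R) : R := 20 + 931 * u + 20 * u ^ 2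
def a2 (u : R) : R := 154 + 560 * u + u ^ 2

/-- polynomial of the second curve -/
def e0 (X Y : R) : R :=
  let u := X + Y - 1
  let b := a1 u - 192 * X * Y
  a0 u ^ 3 + u * b ^ 3 + u ^ 2 * a2 u ^ 3 - 3 * u * a0 u * b * a2 u

end

lemma e1_map {R S : Type} [CommRing R] [CommRing S] (f : R →+* S) (X Y : R) :
    f (e1 X Y) = e1 (f X) (f Y) := by
  have h : ∀ n : ℕ, [n.AtLeastTwo] → f (OfNat.ofNat n : R) = (OfNat.ofNat n : S) := fun n _ =>
    map_ofNat f n
  simp [e1, h]

lemma e0_map {R S : Type} [CommRing R] [CommRing S] (f : R →+* S) (X Y : R) :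
    f (e0 X Y) = e0 (f X) (f Y) := by
  have h : ∀ n : ℕ, [n.AtLeastTwo] → f (OfNat.ofNat n : R) = (OfNat.ofNat n : S) := fun n _ =>
    map_ofNat f n
  simp [e0, a0, a1, a2, h]

theorem exc : T_EXC := by
  intro k _ _
  refine ⟨e1 (MvPolynomial.X 0) (MvPolynomial.X 1) * e0 (MvPolynomial.X 0) (MvPolynomial.X 1),
    ?_, ?_⟩
  · intro h
    have h1 := congrArg (MvPolynomial.eval ![(1 : k), 0]) h
    rw [map_mul, e1_map, e0_map] at h1
    simp [e1, e0, a0, a1, a2] at h1
  · intro K _ _ X Y h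
    have hcast : ((3 : ℕ) : K) ≠ 0 := by
      have h3 : ((3 : ℕ) : k) ≠ 0 := by exact_mod_cast (by norm_num : (3 : ℕ) ≠ 0)
      rw [← map_natCast (algebraMap k K)]
      exact fun h => h3 ((map_eq_zero _).1 h)
    have h2cast : (2 : K) ≠ 0 := by
      have h2 : ((2 : ℕ) : k) ≠ 0 := by exact_mod_cast (by norm_num : (2 : ℕ) ≠ 0)
      have : ((2 : ℕ) : K) ≠ 0 := by
        rw [← map_natCast (algebraMap k K)]
        exact fun h => h2 ((map_eq_zero _).1 h)
      exact_mod_cast this
    have hm : MvPolynomial.aeval ![X, Y] (e1 (MvPolynomial.X 0) (MvPolynomial.X 1) *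
        e0 (MvPolynomial.X 0) (MvPolynomial.X 1) : MvPolynomial (Fin 2) k) = e1 X Y * e0 X Y := by
      rw [map_mul]
      have h1 := e1_map (MvPolynomial.aeval (R := k) ![X, Y]).toRingHom
        (MvPolynomial.X 0) (MvPolynomial.X 1)
      have h2 := e0_map (MvPolynomial.aeval (R := k) ![X, Y]).toRingHom
        (MvPolynomial.X 0) (MvPolynomial.X 1)
      simp at h1 h2
      rw [h1, h2]
    rw [hm]
    rcases h with ⟨s, hu, hX, hY⟩ | ⟨ω, hω, s, hu, hX, hY⟩
    · have hs : s ≠ 0 := by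
        rintro rfl
        simp at hX
      have h1 : e1 X Y = 0 := by
        have h4 : 64 * s ^ 2 * e1 X Y = 0 := by
          unfold e1
          rw [hu]
          have h5 : 8 * s * (X - Y) = (s + 1) ^ 4 + (s - 1) ^ 4 := by
            linear_combination hX - hY
          have h6 : 64 * s ^ 2 * (16 * s ^ 2 * (X - Y) ^ 2) =
              16 * s ^ 2 * ((s + 1) ^ 4 + (s - 1) ^ 4) ^ 2 := by
            rw [← h5]; ring
          linear_combination h6
        have h64 : (64 : K) ≠ 0 := by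
          have : (64 : K) = 2 ^ 6 := by norm_num
          rw [this]; exact pow_ne_zero _ h2cast
        exact (mul_eq_zero.1 h4).resolve_left (mul_ne_zero h64 (pow_ne_zero _ hs))
      rw [h1, zero_mul]
    · set w : K := algebraMap k K ω with hw
      have hw2 : w ^ 2 = -3 := by
        rw [hw, ← map_pow, hω, map_neg, map_ofNat]
      have hs : s ≠ 0 := by
        rintro rfl
        simp at hX
      have h64 : (64 : K) ≠ 0 := by
        have : (64 : K) = 2 ^ 6 := by norm_num
        rw [this]; exact pow_ne_zero _ h2cast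
      have hz : 192 * s ^ 2 * (X * Y) = (s ^ 4 + 5 * s ^ 2 + 1) ^ 4 := by
        have h5 : (8 * w * s * X) * (8 * w * s * Y) =
            -(((s ^ 2 + w * s + 1) * (s ^ 2 - w * s + 1)) ^ 4) := by
          rw [hX, hY]; ring
        have h6 : (s ^ 2 + w * s + 1) * (s ^ 2 - w * s + 1) = s ^ 4 + 5 * s ^ 2 + 1 := by
          linear_combination (-s ^ 2) * hw2
        rw [h6] at h5
        linear_combination (-1 : K) * h5 + 64 * s ^ 2 * X * Y * hw2
      have h0 : e0 X Y = 0 := by
        have h7 : a0 (s ^ 6) + (a1 (s ^ 6) - 192 * X * Y) * s ^ 2 + a2 (s ^ 6) * s ^ 4 = 0 := by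
          unfold a0 a1 a2
          linear_combination (-1 : K) * hz
        unfold e0
        simp only [hu]
        set A := a0 (s ^ 6)
        set B := a1 (s ^ 6) - 192 * X * Y
        set C := a2 (s ^ 6)
        linear_combination (A ^ 2 + (B * s ^ 2) ^ 2 + (C * s ^ 4) ^ 2 - A * (B * s ^ 2)
          - A * (C * s ^ 4) - (B * s ^ 2) * (C * s ^ 4)) * h7
      rw [h0, mul_zero]

end Pool.Agent.H93.FQ
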