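import Pool.Agent.H30.FQ.Targets

/-! # MP_70ba79_ag, module SMD: derivatives of small functions -/

set_option autoImplicit false

namespace Pool.Agent.H93.FQ

open SC Pool.Agent.H27.LV Pool.Agent.H30.FQ

open Classical in
theorem smd : T_SMD := by
  intro k K _ _ _ _ _ _ htr S D w hD hc0 hcw j f hf v
  obtain ⟨hπ, ⟨h1, h2⟩, h3⟩ := dor k K htr D hD v
  have hc0v := hc0 v
  have hcwv := hcw v
  have hfv := hf v
  have hord : ordD v D = (if v ∈ S then 1 else 0) - cc S D v := by unfold cc; ring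
  by_cases hDf : D f = 0
  · exact Or.inl hDf
  right
  have hf0 : f ≠ 0 := by
    rintro rfl
    exact hDf (map_zero D)
  have hf1 : -(2 * j * w v) ≤ v.ord f := hfv.resolve_left hf0
  have hjw : (0 : ℤ) ≤ j * w v := mul_nonneg (Nat.cast_nonneg j) (by omega)
  have e1 : ((2 : ℤ) * ((j + 1 : ℕ) : ℤ) * w v) = 2 * (j * w v) + 2 * w v := by push_cast; ring
  have e2 : (2 : ℤ) * (j : ℤ) * w v = 2 * (j * w v) := by ring
  rw [e1]
  rw [e2] at hf1
  have h4 : v.ord f - 1 + ordD v D ≤ v.ord (D f) := (h2 f hf0).resolve_left hDf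
  by_cases hS : v ∈ S
  · rw [if_pos hS] at hord
    omega
  · rw [if_neg hS] at hord
    by_cases hw : w v = 0
    · rw [hw] at hf1 ⊢
      have h5 : ordD v D ≤ v.ord (D f) := (h1 f (by simpa using hf1)).resolve_left hDf
      rw [mul_zero]
      omega
    · omega

end Pool.Agent.H93.FQ
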